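import Mathlib
import Pool.Agent.Helper50.Gaps.Final

set_option autoImplicit false

namespace Pool.Agent.Results.MP_25eb51_an.NotJulia

open Pool.Agent.Helper50.Gaps Polynomial

/-- Negative answer to Q1: there is a real compact, non-polar, regular set with rational gaps which
is not the Julia set of any sequence of polynomials of degrees at least two. -/
theorem result : ∃ K : Set ℝ, IsCompact K ∧ IsNonPolar K ∧ IsRegularSet K ∧ RationalGaps K ∧
    ∀ f : ℕ → ℂ[X], (∀ n, 2 ≤ (f n).natDegree) →
      juliaSet f ≠ (fun z : ℂ => (z : OnePoint ℂ)) '' (Complex.ofReal '' K) := by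
  obtain ⟨D⟩ := exists_LD
  exact ⟨D.K, D.K_compact, D.nonPolar, D.regular, D.rationalGaps, fun f hf => D.not_julia f hf⟩

end Pool.Agent.Results.MP_25eb51_an.NotJulia
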