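import Mathlib
import Pool.Agent.Helper50.Gaps.Final

set_option autoImplicit false

namespace Pool.Agent.Results.MP_25eb51_an.NotTSetLimit

open Pool.Agent.Helper50.Gaps Polynomial Set

/-- Negative answer to Q2: there is a real compact, non-polar, regular set with rational gaps which
is not the intersection of the preimages of `[-1,1]` under the compositions of any sequence of
admissible polynomials (decreasing or not, and for preimages taken in `ℂ` or in `ℝ`). -/
theorem result : ∃ K : Set ℝ, IsCompact K ∧ IsNonPolar K ∧ IsRegularSet K ∧ RationalGaps K ∧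
    ∀ f : ℕ → ℝ[X], (∀ n, Admissible (f n)) →
      (Complex.ofReal '' K ≠
        ⋂ n : ℕ, {z : ℂ | ∃ s ∈ Icc (-1 : ℝ) 1, aeval z (iterPoly f n) = (s : ℂ)}) ∧
      K ≠ ⋂ n : ℕ, {x : ℝ | (iterPoly f n).eval x ∈ Icc (-1 : ℝ) 1} := by
  obtain ⟨D⟩ := exists_LD
  exact ⟨D.K, D.K_compact, D.nonPolar, D.regular, D.rationalGaps, fun f hf =>
    ⟨D.not_complex_preimages f fun n => (hf n).1, D.not_real_preimages f hf⟩⟩

end Pool.Agent.Results.MP_25eb51_an.NotTSetLimit
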